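import Pool.Agent.X90.DC.Ind

/-!
# Patterns as combinations of products of a constant index and a growing pattern
-/

set_option autoImplicit false

namespace Pool.Agent.N665.LP

open Finset Pool.Agent.Y760.ZF Pool.Agent.X90.DC
open Pool.Agent.X90.DB (Ad ex ex_nil ex_ne ad_ne ix)

variable {k : ℕ}

lemma psti_nil_right (u : List (Lr k)) : psti u [] = [u] := by
  cases u with
  | nil => rw [psti]
  | cons i u => rw [psti]

lemma psti_sum (u v : List (Lr k)) : ∀ x ∈ psti u v, x.sum = u.sum + v.sum := by
  induction u, v using psti.induct with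
  | case1 v =>
    intro x hx
    rw [psti, List.mem_singleton] at hx
    rw [hx, List.sum_nil, zero_add]
  | case2 i u =>
    intro x hx
    rw [psti, List.mem_singleton] at hx
    rw [hx, List.sum_nil, add_zero]
  | case3 i u j v ih1 ih2 ih3 =>
    intro x hx
    rw [psti, List.mem_append, List.mem_append, List.mem_map, List.mem_map, List.mem_map] at hx
    rcases hx with (⟨x', hx', rfl⟩ | ⟨x', hx', rfl⟩) | ⟨x', hx', rfl⟩
    · rw [List.sum_cons, ih1 x' hx', List.sum_cons, List.sum_cons]
      abel
    · rw [List.sum_cons, ih2 x' hx', List.sum_cons, List.sum_cons]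
      abel
    · rw [List.sum_cons, ih3 x' hx', List.sum_cons, List.sum_cons]
      abel

lemma psti_length (u v : List (Lr k)) : ∀ x ∈ psti u v, x.length ≤ u.length + v.length := by
  induction u, v using psti.induct with
  | case1 v =>
    intro x hx
    rw [psti, List.mem_singleton] at hx
    rw [hx, List.length_nil, zero_add]
  | case2 i u =>
    intro x hx
    rw [psti, List.mem_singleton] at hx
    rw [hx, List.length_nil, add_zero]
  | case3 i u j v ih1 ih2 ih3 =>
    intro x hx
    rw [psti, List.mem_append, List.mem_append, List.mem_map, List.mem_map, List.mem_map] at hx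
    simp only [List.length_cons] at ih1 ih2 ih3 ⊢
    rcases hx with (⟨x', hx', rfl⟩ | ⟨x', hx', rfl⟩) | ⟨x', hx', rfl⟩
    · have := ih1 x' hx'
      rw [List.length_cons]
      omega
    · have := ih2 x' hx'
      rw [List.length_cons]
      omega
    · have := ih3 x' hx'
      rw [List.length_cons]
      omega

/-- **the decomposition** -/
lemma decF (n : ℕ) : ∀ p : List ℕ, p.length ≤ n → (p = [] ∨ Ad p) → ∀ v : List (Lr k), Gd v →
    ∃ L : List (ℤ × List ℕ × List (Lr k)),
      (∀ e ∈ L, (e.2.1 = [] ∨ Ad e.2.1) ∧ e.2.1 <+: p ∧ Gd e.2.2 ∧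
        e.2.1.length + e.2.2.length ≤ p.length + v.length ∧
        (fp e.2.1).sum + e.2.2.sum = (fp p).sum + v.sum) ∧
      ∀ (A : Type) [AddCommGroup A] (F : List (Lr k) → A),
        F (fp p ++ v) = (L.map fun e => e.1 • ((psti (fp e.2.1) e.2.2).map F).sum).sum := by
  classical
  induction n with
  | zero =>
    intro p hp _ v hv
    have : p = [] := List.eq_nil_of_length_eq_zero (by omega)
    subst this
    refine ⟨[(1, [], v)], fun e he => ?_, fun A _ F => ?_⟩
    · rw [List.mem_singleton] at he
      subst he
      exact ⟨Or.inl rfl, List.prefix_refl _, hv, le_rfl, rfl⟩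
    · have e1 : (fp [] : List (Lr k)) = [] := rfl
      simp only [List.map_cons, List.map_nil, List.sum_cons, List.sum_nil, add_zero, one_smul, e1]
      rw [psti]
      simp
  | succ n ih =>
    intro p hp hpA v hv
    by_cases hv0 : v = []
    · subst hv0
      refine ⟨[(1, p, [])], fun e he => ?_, fun A _ F => ?_⟩
      · rw [List.mem_singleton] at he
        subst he
        exact ⟨hpA, List.prefix_refl _, hv, le_rfl, rfl⟩
      · simp only [List.map_cons, List.map_nil, List.sum_cons, List.sum_nil, add_zero, one_smul]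
        rw [psti_nil_right]
        simp
    · have hp1 : ∀ a ∈ p, 1 ≤ a := by
        rcases hpA with rfl | h
        · simp
        · exact h.pos
      obtain ⟨R, hR, hsum⟩ := psti_split p hp1 v hv hv0
      -- lengths and weights
      have hgood : ∀ e ∈ R, e.1.length + e.2.length ≤ p.length + v.length ∧
          (fp e.1).sum + e.2.sum = (fp p).sum + v.sum := by
        set G : List (Lr k) → ℕ := fun z =>
          if z.length ≤ p.length + v.length ∧ z.sum = (fp p).sum + v.sum then 0 else 1 with hG
        have h1 := hsum ℕ G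
        have h2 : ((psti (fp p) v).map G).sum = 0 := by
          rw [List.sum_eq_zero_iff]
          intro x hx
          rw [List.mem_map] at hx
          obtain ⟨z, hz, rfl⟩ := hx
          have h3 := psti_sum _ _ z hz
          have h4 := psti_length _ _ z hz
          rw [show (fp p : List (Lr k)).length = p.length from by rw [fp, List.length_map]] at h4
          rw [hG]
          simp only
          rw [if_pos ⟨h4, h3⟩]
        rw [h2] at h1
        have h5 : (R.map fun e => G (fp e.1 ++ e.2)).sum = 0 := by omega
        intro e he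
        rw [List.sum_eq_zero_iff] at h5
        have h6 := h5 _ (List.mem_map_of_mem he)
        rw [hG] at h6
        simp only [List.length_append, List.sum_append] at h6
        by_contra hcon
        rw [if_neg] at h6
        · exact absurd h6 one_ne_zero
        · rw [show (fp e.1 : List (Lr k)).length = e.1.length from by rw [fp, List.length_map]]
          exact hcon
      have h1 : ∀ e : List ℕ × List (Lr k), e ∈ R → ∃ L : List (ℤ × List ℕ × List (Lr k)),
          (∀ e' ∈ L, (e'.2.1 = [] ∨ Ad e'.2.1) ∧ e'.2.1 <+: e.1 ∧ Gd e'.2.2 ∧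
            e'.2.1.length + e'.2.2.length ≤ e.1.length + e.2.length ∧
            (fp e'.2.1).sum + e'.2.2.sum = (fp e.1).sum + e.2.sum) ∧
          ∀ (A : Type) [AddCommGroup A] (F : List (Lr k) → A),
            F (fp e.1 ++ e.2) = (L.map fun e => e.1 • ((psti (fp e.2.1) e.2.2).map F).sum).sum := by
        intro e he
        obtain ⟨⟨q, hq, hpe⟩, hg⟩ := hR e he
        refine ih e.1 ?_ ?_ e.2 hg
        · have := List.length_pos_iff.2 hq
          rw [hpe, List.length_append] at hp
          omega
        · rcases hpA with h | h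
          · rw [hpe] at h
            exact Or.inl (List.append_eq_nil_iff.1 h).1
          · rw [hpe] at h
            exact ad_of_prefix h
      choose! Lf hLf1 hLf2 using h1
      refine ⟨(1, p, v) :: R.flatMap fun e => (Lf e).map fun e' => (-e'.1, e'.2),
        fun e he => ?_, fun A _ F => ?_⟩
      · rcases List.mem_cons.1 he with rfl | he
        · exact ⟨hpA, List.prefix_refl _, hv, le_rfl, rfl⟩
        · rw [List.mem_flatMap] at he
          obtain ⟨e1, he1, he⟩ := he
          rw [List.mem_map] at he
          obtain ⟨e2, he2, rfl⟩ := he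
          obtain ⟨g1, g2, g3, g4, g5⟩ := hLf1 e1 he1 e2 he2
          obtain ⟨g6, g7⟩ := hgood e1 he1
          refine ⟨g1, g2.trans ?_, g3, g4.trans g6, g5.trans g7⟩
          obtain ⟨⟨q, hq, hpe⟩, hg⟩ := hR e1 he1
          rw [hpe]
          exact List.prefix_append _ _
      · have h4 := hsum A F
        have h5 : ∀ R' : List (List ℕ × List (Lr k)), (∀ e ∈ R', e ∈ R) →
            ((R'.flatMap fun e => (Lf e).map fun e' => (-e'.1, e'.2)).map
              fun e => e.1 • ((psti (fp e.2.1) e.2.2).map F).sum).sum =
            -(R'.map fun e => F (fp e.1 ++ e.2)).sum := by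
          intro R'
          induction R' with
          | nil => simp
          | cons e R' ihR =>
            intro hR'
            rw [List.flatMap_cons, List.map_append, List.sum_append,
              ihR fun e he => hR' e (List.mem_cons_of_mem _ he), List.map_cons, List.sum_cons,
              neg_add]
            congr 1
            rw [hLf2 e (hR' e List.mem_cons_self) A F, List.map_map]
            generalize Lf e = T
            induction T with
            | nil => simp
            | cons a T ihT =>
              rw [List.map_cons, List.sum_cons, ihT, List.map_cons, List.sum_cons]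
              simp only [Function.comp]
              rw [neg_smul, neg_add]
        rw [List.map_cons, List.sum_cons, h5 R fun e he => he, one_smul, h4]
        abel

/-- general patterns -/
lemma exists_dec (w : List (Lr k)) (hw : Ge w) : ∃ L : List (ℤ × List ℕ × List (Lr k)),
    (∀ e ∈ L, (e.2.1 = [] ∨ Ad e.2.1) ∧ e.2.1 <+: fpx w ∧ Gd e.2.2 ∧
      e.2.1.length + e.2.2.length ≤ w.length ∧ (fp e.2.1).sum + e.2.2.sum = w.sum) ∧
    ∀ (A : Type) [AddCommGroup A] (F : List (Lr k) → A),
      F w = (L.map fun e => e.1 • ((psti (fp e.2.1) e.2.2).map F).sum).sum := by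
  obtain ⟨v, h2, h3⟩ := exists_prefix2 w hw.2
  have hge : Ge (fp (fpx w) ++ v) := by
    rw [← h3]
    exact hw
  obtain ⟨L, hL1, hL2⟩ := decF (fpx w).length (fpx w) le_rfl (ge_prefix hge) v h2
  have hl : w.length = (fpx w).length + v.length := by
    conv_lhs => rw [h3]
    rw [List.length_append, fp, List.length_map]
  have hs : w.sum = (fp (fpx w)).sum + v.sum := by
    conv_lhs => rw [h3]
    rw [List.sum_append]
  refine ⟨L, fun e he => ?_, fun A _ F => ?_⟩
  · obtain ⟨g1, g2, g3, g4, g5⟩ := hL1 e he
    exact ⟨g1, g2, g3, by rw [hl]; exact g4, by rw [hs]; exact g5⟩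
  · rw [← hL2 A F, ← h3]

lemma sum_collect {α A : Type} [AddCommGroup A] [DecidableEq α] (L : List (ℤ × α)) (Q : Finset α)
    (G : α → A) (h : ∀ e ∈ L, e.2 ∈ Q) : (L.map fun e => e.1 • G e.2).sum =
      ∑ p ∈ Q, (L.map fun e => if e.2 = p then e.1 else 0).sum • G p := by
  induction L with
  | nil => simp
  | cons e L ih =>
    rw [List.map_cons, List.sum_cons, ih fun e he => h e (List.mem_cons_of_mem _ he)]
    simp only [List.map_cons, List.sum_cons, add_smul, sum_add_distrib]
    congr 1
    rw [sum_eq_single_of_mem e.2 (h e List.mem_cons_self)]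
    · rw [if_pos rfl]
    · intro b _ hb
      rw [if_neg (Ne.symm hb), zero_smul]

/-- **finitely many patterns** -/
theorem exists_coeff (Λ : Finset (List (Lr k))) (hΛ : ∀ w ∈ Λ, Ge w) :
    ∃ (Q : Finset (List ℕ × List (Lr k))) (b : List (Lr k) → (List ℕ × List (Lr k)) → ℤ),
      (∀ p ∈ Q, ∃ w ∈ Λ, (p.1 = [] ∨ Ad p.1) ∧ p.1 <+: fpx w ∧ Gd p.2 ∧
        p.1.length + p.2.length ≤ w.length ∧ (fp p.1).sum + p.2.sum = w.sum) ∧
      ∀ (A : Type) [AddCommGroup A] (F : List (Lr k) → A), ∀ w ∈ Λ,
        F w = ∑ p ∈ Q, b w p • ((psti (fp p.1) p.2).map F).sum := by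
  classical
  have h1 : ∀ w : List (Lr k), w ∈ Λ → ∃ L : List (ℤ × List ℕ × List (Lr k)),
      (∀ e ∈ L, (e.2.1 = [] ∨ Ad e.2.1) ∧ e.2.1 <+: fpx w ∧ Gd e.2.2 ∧
        e.2.1.length + e.2.2.length ≤ w.length ∧ (fp e.2.1).sum + e.2.2.sum = w.sum) ∧
      ∀ (A : Type) [AddCommGroup A] (F : List (Lr k) → A),
        F w = (L.map fun e => e.1 • ((psti (fp e.2.1) e.2.2).map F).sum).sum :=
    fun w hw => exists_dec w (hΛ w hw)
  choose! L hL1 hL2 using h1
  refine ⟨Λ.biUnion fun w => ((L w).map Prod.snd).toFinset,
    fun w p => ((L w).map fun e => if e.2 = p then e.1 else 0).sum, fun p hp => ?_,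
    fun A _ F w hw => ?_⟩
  · rw [mem_biUnion] at hp
    obtain ⟨w, hw, hp⟩ := hp
    rw [List.mem_toFinset, List.mem_map] at hp
    obtain ⟨e, he, rfl⟩ := hp
    exact ⟨w, hw, hL1 w hw e he⟩
  · rw [hL2 w hw A F]
    refine sum_collect (L w) _ (fun p => ((psti (fp p.1) p.2).map F).sum) fun e he => ?_
    rw [mem_biUnion]
    exact ⟨w, hw, List.mem_toFinset.2 (List.mem_map_of_mem he)⟩

end Pool.Agent.N665.LP
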