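import Pool.Agent.X90.DC.Ind

/-!
# The truncated sums at lists of numbers are linearly independent
-/

set_option autoImplicit false

namespace Pool.Agent.N665.LP

open Finset Pool.Agent.Y760.ZF Pool.Agent.X90.DC

/-- the part of `Zt (x :: B) w` with the first number -/
noncomputable def part (x : ℂ) (B : List ℂ) : List ℕ → ℂ
  | [] => 0
  | s :: l => x ^ s * Zt B l

lemma Zt_cons (x : ℂ) (B : List ℂ) (w : List ℕ) : Zt (x :: B) w = Zt B w + part x B w := by
  cases w with
  | nil => rw [Zt_nil, Zt_nil, part, add_zero]
  | cons s l => rw [Zt, part]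

/-- a polynomial -/
noncomputable def pol (B : List ℂ) : List ℕ → Polynomial ℂ
  | [] => 0
  | s :: l => Polynomial.monomial s (Zt B l)

lemma eval_pol (x : ℂ) (B : List ℂ) (w : List ℕ) : (pol B w).eval x = part x B w := by
  cases w with
  | nil => rw [pol, part, Polynomial.eval_zero]
  | cons s l => rw [pol, part, Polynomial.eval_monomial, mul_comm]

lemma coeff_pol (B : List ℂ) (w : List ℕ) (s : ℕ) :
    (pol B w).coeff s = if w.head? = some s then Zt B w.tail else 0 := by
  cases w with
  | nil => rw [pol, Polynomial.coeff_zero, List.head?_nil, if_neg (by simp)]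
  | cons s' l =>
    rw [pol, Polynomial.coeff_monomial, List.head?_cons, List.tail_cons]
    by_cases h : s' = s
    · rw [if_pos h, if_pos (by rw [h])]
    · rw [if_neg h, if_neg (by simpa using h)]

/-- **the truncated sums are linearly independent** -/
lemma Zt_indep (n : ℕ) : ∀ (T : Finset (List ℕ)) (a : List ℕ → ℂ), (∀ w ∈ T, w.length ≤ n) →
    (∀ B : List ℂ, ∑ w ∈ T, a w * Zt B w = 0) → ∀ w ∈ T, a w = 0 := by
  classical
  induction n with
  | zero =>
    intro T a hT h w hw
    have h1 : ∀ w' ∈ T, w' = w := by
      intro w' hw'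
      rw [List.length_eq_zero_iff.1 (Nat.le_zero.1 (hT w' hw')), List.length_eq_zero_iff.1 (Nat.le_zero.1 (hT w hw))]
    have h2 := h []
    rw [sum_eq_single_of_mem w hw (fun b hb hne => absurd (h1 b hb) hne),
      List.length_eq_zero_iff.1 (Nat.le_zero.1 (hT w hw)), Zt_nil, mul_one] at h2
    rw [List.length_eq_zero_iff.1 (Nat.le_zero.1 (hT w hw))]
    exact h2
  | succ n ih =>
    intro T a hT h
    have hcons : ∀ w ∈ T, w ≠ [] → a w = 0 := by
      intro w hw hne
      obtain ⟨s, l, rfl⟩ := List.exists_cons_of_ne_nil hne
      set T' : Finset (List ℕ) := T.filter fun w => w.head? = some s with hT'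
      have hT's : ∀ w ∈ T', w = s :: w.tail := by
        intro w hw
        rw [hT', mem_filter] at hw
        cases w with
        | nil => simp at hw
        | cons s' l' =>
          have := hw.2
          rw [List.head?_cons, Option.some_inj] at this
          rw [this, List.tail_cons]
      have hinj : ∀ w₁ ∈ T', ∀ w₂ ∈ T', w₁.tail = w₂.tail → w₁ = w₂ := by
        intro w₁ h₁ w₂ h₂ h12
        rw [hT's w₁ h₁, hT's w₂ h₂, h12]
      have h1 : ∀ B : List ℂ, ∑ w ∈ T', a w * Zt B w.tail = 0 := by
        intro B
        have h2 : (∑ w ∈ T, Polynomial.C (a w) * pol B w) = 0 := by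
          refine Polynomial.funext fun x => ?_
          rw [Polynomial.eval_zero, Polynomial.eval_finset_sum]
          have h3 := h (x :: B)
          simp only [Zt_cons, mul_add, sum_add_distrib] at h3
          rw [h B, zero_add] at h3
          rw [← h3]
          refine sum_congr rfl fun w _ => ?_
          rw [Polynomial.eval_mul, Polynomial.eval_C, eval_pol]
        have h3 := congrArg (fun q => Polynomial.coeff q s) h2
        simp only [Polynomial.finset_sum_coeff, Polynomial.coeff_C_mul, coeff_pol, mul_ite, mul_zero,
          Polynomial.coeff_zero] at h3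
        rw [← sum_filter] at h3
        exact h3
      have h2 := ih (T'.image List.tail) (fun l => a (s :: l)) (fun l hl => by
        rw [mem_image] at hl
        obtain ⟨w, hw, rfl⟩ := hl
        have h3 := hT w (mem_filter.1 hw).1
        have h4 := congrArg List.length (hT's w hw)
        rw [List.length_cons] at h4
        omega) (fun B => by
        rw [sum_image (fun w₁ h₁ w₂ h₂ h12 => hinj w₁ h₁ w₂ h₂ h12)]
        rw [← h1 B]
        refine sum_congr rfl fun w hw => ?_
        rw [← hT's w hw])
      exact h2 l (mem_image.2 ⟨s :: l, by rw [hT', mem_filter]; exact ⟨hw, by simp⟩, rfl⟩)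
    intro w hw
    by_cases hne : w = []
    · subst hne
      have h2 := h []
      rw [sum_eq_single_of_mem [] hw (fun b hb hne => by rw [hcons b hb hne, zero_mul]), Zt_nil, mul_one] at h2
      exact h2
    · exact hcons w hw hne

end Pool.Agent.N665.LP
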