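import Pool.Agent.N665.LP.Dec
import Pool.Agent.N665.LP.Indep

/-!
# Few tuples with relations which do not split
-/

set_option autoImplicit false

namespace Pool.Agent.N665.LP

open Finset Pool.Agent.Y760.ZF Pool.Agent.X90.DC
open Pool.Agent.Y760.ZG (mz)
open Pool.Agent.X90.DB (Ad ex ex_nil ex_ne ad_ne ix card_plane)

variable {k : ℕ}

/-- the value of a letter -/
def ev (s : Fin k → ℕ) (a : Lr k) : ℕ := a.1 + ∑ j, a.2 j * s j

/-- different patterns with the same index have different letters with the same value -/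
lemma ix_ne (s : Fin k → ℕ) : ∀ v v' : List (Lr k), v ≠ v' → ix s v = ix s v' →
    ∃ a ∈ v, ∃ a' ∈ v', a ≠ a' ∧ ev s a = ev s a' := by
  intro v
  induction v with
  | nil =>
    intro v' h1 h2
    cases v' with
    | nil => exact absurd rfl h1
    | cons b v' => rw [ix_cons] at h2; exact absurd h2 (List.cons_ne_nil _ _).symm
  | cons a v ih =>
    intro v' h1 h2
    cases v' with
    | nil => rw [ix_cons] at h2; exact absurd h2 (List.cons_ne_nil _ _)
    | cons b v' =>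
      rw [ix_cons, ix_cons, List.cons.injEq] at h2
      by_cases hab : a = b
      · subst hab
        obtain ⟨x, hx, y, hy, h3, h4⟩ := ih v' (fun h => h1 (by rw [h])) h2.2
        exact ⟨x, List.mem_cons_of_mem _ hx, y, List.mem_cons_of_mem _ hy, h3, h4⟩
      · exact ⟨a, List.mem_cons_self, b, List.mem_cons_self, hab, h2.1⟩

/-- the letters of finitely many patterns -/
def lts (V : Finset (List (Lr k))) : Finset (Lr k) := V.biUnion fun v => v.toFinset

/-- the tuples at which two different letters have the same value are few -/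
lemma card_coll (E : Finset (Lr k)) {κ N : ℕ} (hN : 1 ≤ N) (B : Finset (Fin k → ℕ))
    (hB : ∀ s ∈ B, (∀ j, N ≤ s j ∧ s j ≤ κ * N) ∧ ∃ a ∈ E, ∃ a' ∈ E, a ≠ a' ∧ ev s a = ev s a') :
    B.card ≤ E.card * E.card * κ ^ (k - 1) * N ^ (k - 1) := by
  classical
  have h1 : B ⊆ (E ×ˢ E).biUnion fun p => if p.1.2 = p.2.2 then ∅ else
      ((Fintype.piFinset fun _ : Fin k => Finset.Icc N (κ * N)).filter fun s =>
        ∑ j, ((fun j => (p.1.2 j : ℤ) - (p.2.2 j : ℤ) : Fin k → ℤ)) j * (s j : ℤ) =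
          (p.2.1 : ℤ) - p.1.1) := by
    intro s hs
    obtain ⟨h2, a, ha, a', ha', hne, hev⟩ := hB s hs
    rw [mem_biUnion]
    refine ⟨(a, a'), mem_product.2 ⟨ha, ha'⟩, ?_⟩
    have h3 : a.2 ≠ a'.2 := by
      intro h
      apply hne
      refine Prod.ext ?_ h
      rw [ev, ev, h] at hev
      omega
    rw [if_neg h3, mem_filter, Fintype.mem_piFinset]
    refine ⟨fun j => mem_Icc.2 (h2 j), ?_⟩
    rw [ev, ev] at hev
    have h4 : ((a.1 : ℤ) + ∑ j, (a.2 j : ℤ) * (s j : ℤ)) = (a'.1 : ℤ) + ∑ j, (a'.2 j : ℤ) * (s j : ℤ) := by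
      exact_mod_cast hev
    simp only [sub_mul, sum_sub_distrib]
    linarith
  refine (card_le_card h1).trans (card_biUnion_le.trans ?_)
  have h2 : ∀ p ∈ E ×ˢ E, (if p.1.2 = p.2.2 then (∅ : Finset (Fin k → ℕ)) else
      ((Fintype.piFinset fun _ : Fin k => Finset.Icc N (κ * N)).filter fun s =>
        ∑ j, ((fun j => (p.1.2 j : ℤ) - (p.2.2 j : ℤ) : Fin k → ℤ)) j * (s j : ℤ) =
          (p.2.1 : ℤ) - p.1.1)).card ≤ κ ^ (k - 1) * N ^ (k - 1) := by
    intro p _
    split_ifs with h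
    · simp
    · refine (card_plane N (κ * N) _ ?_ _).trans ?_
      · intro h0
        apply h
        funext j
        have h1 := congrFun h0 j
        simp only [Pi.zero_apply] at h1
        omega
      · rw [← mul_pow]
        exact Nat.pow_le_pow_left (by omega) _
  refine (sum_le_sum h2).trans ?_
  rw [sum_const, card_product, smul_eq_mul, mul_assoc, mul_assoc, mul_assoc]

/-- the polynomial `∑ ρ_j X_j Y_j` -/
noncomputable def diag {m : ℕ} (ρ : Fin m → ℤ) : MvPolynomial (Fin m ⊕ Fin m) ℤ :=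
  ∑ j, MvPolynomial.C (ρ j) * (MvPolynomial.X (Sum.inl j) * MvPolynomial.X (Sum.inr j))

lemma diag_deg {m : ℕ} (ρ : Fin m → ℤ) : (diag ρ).totalDegree ≤ 2 := by
  refine MvPolynomial.totalDegree_finsetSum_le fun j _ => ?_
  refine (MvPolynomial.totalDegree_mul _ _).trans ?_
  rw [MvPolynomial.totalDegree_C, zero_add]
  refine (MvPolynomial.totalDegree_mul _ _).trans ?_
  rw [MvPolynomial.totalDegree_X, MvPolynomial.totalDegree_X]

lemma diag_coeff {m : ℕ} (ρ : Fin m → ℤ) (n : (Fin m ⊕ Fin m) →₀ ℕ) :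
    |(((diag ρ).coeff n : ℤ) : ℝ)| ≤ ∑ j, |(ρ j : ℝ)| := by
  classical
  rw [diag, MvPolynomial.coeff_sum]
  push_cast
  refine (abs_sum_le_sum_abs _ _).trans (sum_le_sum fun j _ => ?_)
  rw [MvPolynomial.coeff_C_mul]
  push_cast
  rw [abs_mul]
  refine mul_le_of_le_one_right (abs_nonneg _) ?_
  have : (MvPolynomial.X (Sum.inl j) * MvPolynomial.X (Sum.inr j) : MvPolynomial (Fin m ⊕ Fin m) ℤ) =
      MvPolynomial.monomial (Finsupp.single (Sum.inl j) 1 + Finsupp.single (Sum.inr j) 1) 1 := by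
    rw [MvPolynomial.X, MvPolynomial.X, MvPolynomial.monomial_mul, one_mul]
  rw [this, MvPolynomial.coeff_monomial]
  split_ifs <;> simp

lemma diag_eval {m : ℕ} (ρ : Fin m → ℤ) {A : Type} [CommRing A] (x y : Fin m → A) :
    MvPolynomial.aeval (Sum.elim x y) (diag ρ) = ∑ j, (ρ j : A) * (x j * y j) := by
  rw [diag, map_sum]
  refine sum_congr rfl fun j _ => ?_
  rw [map_mul, map_mul, MvPolynomial.aeval_X, MvPolynomial.aeval_X, MvPolynomial.aeval_C]
  simp

/-- the product formula -/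
lemma prod_eq {s : Fin k → ℕ} (hs : ∀ j, 2 ≤ s j) {p : List ℕ × List (Lr k)}
    (h1 : p.1 = [] ∨ Ad p.1) (h2 : Gd p.2) :
    ((psti (fp p.1) p.2).map fun z => ((mz (ix s z) : ℝ) : ℂ)).sum =
      ((mz p.1 : ℝ) : ℂ) * ((mz (ix s p.2) : ℝ) : ℂ) := by
  have h3 := ex_mul' (Z := fun u => ((mz u : ℝ) : ℂ)) mz_stuffle_C h1 (ix_Ad hs h2)
  have h4 : sti p.1 (ix s p.2) = (psti (fp p.1) p.2).map (ix s) := by
    rw [← ix_psti, ix_fp]
  rw [h4, List.map_map, ex_mz, ex_mz] at h3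
  rw [h3]
  congr 1
  refine List.map_congr_left fun z _ => ?_
  rw [Function.comp, ex_mz]

/-- **few tuples with relations which do not split** -/
theorem split (Λ : Finset (List (Lr k))) (Q : Finset (List ℕ × List (Lr k)))
    (b : List (Lr k) → (List ℕ × List (Lr k)) → ℤ)
    (hQ : ∀ p ∈ Q, (p.1 = [] ∨ Ad p.1) ∧ Gd p.2)
    (hb : ∀ (A : Type) [AddCommGroup A] (F : List (Lr k) → A), ∀ w ∈ Λ,
      F w = ∑ p ∈ Q, b w p • ((psti (fp p.1) p.2).map F).sum) (κ : ℕ) :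
    ∃ K : ℕ, ∀ C : ℝ, ∃ N0 : ℕ, ∀ N : ℕ, N0 ≤ N → ∀ B : Finset (Fin k → ℕ),
      (∀ s ∈ B, (∀ j, N ≤ s j ∧ s j ≤ κ * N) ∧ ∃ c : List (Lr k) → ℤ,
        (∀ w ∈ Λ, |(c w : ℝ)| ≤ C ^ N) ∧ ∑ w ∈ Λ, (c w : ℝ) * mz (ix s w) = 0 ∧
        ¬ ∀ v, ∑ p ∈ Q with p.2 = v, ((∑ w ∈ Λ, c w * b w p : ℤ) : ℝ) * mz p.1 = 0) →
      B.card ≤ K * N ^ (k - 1) := by
  classical
  set m := Q.card with hm
  let e : Fin m ≃ Q := Q.equivFin.symm
  obtain ⟨K1, hK1⟩ := few m k m 2 (fun j => (e j).1.2) (fun j => (hQ _ (e j).2).2) κ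
  set E := lts (Q.image Prod.snd) with hE
  refine ⟨K1 + E.card * E.card * κ ^ (k - 1), fun C => ?_⟩
  set M : ℝ := ∑ p ∈ Q, ∑ w ∈ Λ, |(b w p : ℝ)| with hM
  have hM0 : 0 ≤ M := by positivity
  obtain ⟨N0, hN0⟩ := hK1 ((1 + |C|) * (1 + M)) fun j => ((mz (e j).1.1 : ℝ) : ℂ)
  refine ⟨N0 + 2, fun N hN B hB => ?_⟩
  have hsplit : B = (B.filter fun s => ¬ ∃ a ∈ E, ∃ a' ∈ E, a ≠ a' ∧ ev s a = ev s a') ∪
      B.filter fun s => ∃ a ∈ E, ∃ a' ∈ E, a ≠ a' ∧ ev s a = ev s a' := by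
    ext s
    rw [mem_union, mem_filter, mem_filter]
    tauto
  have hc2 : (B.filter fun s => ∃ a ∈ E, ∃ a' ∈ E, a ≠ a' ∧ ev s a = ev s a').card ≤
      E.card * E.card * κ ^ (k - 1) * N ^ (k - 1) := by
    refine card_coll E (by omega) _ fun s hs => ?_
    rw [mem_filter] at hs
    exact ⟨(hB s hs.1).1, hs.2⟩
  have hc1 : (B.filter fun s => ¬ ∃ a ∈ E, ∃ a' ∈ E, a ≠ a' ∧ ev s a = ev s a').card ≤
      K1 * N ^ (k - 1) := by
    refine hN0 N (by omega) _ fun s hs => ?_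
    rw [mem_filter] at hs
    obtain ⟨hsB, hinj⟩ := hs
    obtain ⟨hs1, c, hcC, hc0, hcne⟩ := hB s hsB
    have hs2 : ∀ j, 2 ≤ s j := fun j => le_trans (by omega) (hs1 j).1
    set ρ : List ℕ × List (Lr k) → ℤ := fun p => ∑ w ∈ Λ, c w * b w p with hρ
    have hρB : ∑ p ∈ Q, |(ρ p : ℝ)| ≤ ((1 + |C|) * (1 + M)) ^ N := by
      have h1 : ∑ p ∈ Q, |(ρ p : ℝ)| ≤ |C| ^ N * M := by
        rw [hM, mul_sum]
        refine sum_le_sum fun p _ => ?_
        rw [hρ]
        push_cast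
        refine (abs_sum_le_sum_abs _ _).trans ?_
        rw [mul_sum]
        refine sum_le_sum fun w hw => ?_
        rw [abs_mul]
        exact mul_le_mul_of_nonneg_right ((hcC w hw).trans ((le_abs_self _).trans (abs_pow _ _).le))
          (abs_nonneg _)
      refine h1.trans ?_
      rw [mul_pow]
      refine mul_le_mul (pow_le_pow_left₀ (abs_nonneg _) (by linarith) _) ?_ hM0 (by positivity)
      exact (by linarith : M ≤ 1 + M).trans (le_self_pow₀ (by linarith) (by omega))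
    have hsumQ : ∀ {A : Type} [AddCommMonoid A] (F : List ℕ × List (Lr k) → A),
        ∑ j : Fin m, F (e j).1 = ∑ p ∈ Q, F p := by
      intro A _ F
      rw [Equiv.sum_comp e fun p : Q => F p.1, sum_coe_sort Q F]
    refine ⟨hs1, diag fun j => ρ (e j).1, diag_deg _, fun n => ?_, ?_, fun hT => hcne ?_⟩
    · refine (diag_coeff _ n).trans ?_
      rw [hsumQ fun p => |(ρ p : ℝ)|]
      exact hρB
    · rw [diag_eval, hsumQ fun p => ((ρ p : ℤ) : ℂ) * (((mz p.1 : ℝ) : ℂ) * ((mz (ix s p.2) : ℝ) : ℂ))]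
      have h1 : ∑ w ∈ Λ, ((c w : ℤ) : ℂ) * ((mz (ix s w) : ℝ) : ℂ) = 0 := by
        have := congrArg (fun y : ℝ => (y : ℂ)) hc0
        push_cast at this
        exact this
      rw [← h1]
      have h2 : ∀ w ∈ Λ, ((mz (ix s w) : ℝ) : ℂ) =
          ∑ p ∈ Q, ((b w p : ℤ) : ℂ) * (((mz p.1 : ℝ) : ℂ) * ((mz (ix s p.2) : ℝ) : ℂ)) := by
        intro w hw
        have h3 := hb ℂ (fun z => ((mz (ix s z) : ℝ) : ℂ)) w hw
        rw [h3]
        refine sum_congr rfl fun p hp => ?_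
        rw [prod_eq hs2 (hQ p hp).1 (hQ p hp).2, zsmul_eq_mul]
      have h3 : ∑ w ∈ Λ, ((c w : ℤ) : ℂ) * ((mz (ix s w) : ℝ) : ℂ) = ∑ w ∈ Λ, ∑ p ∈ Q,
          ((c w : ℤ) : ℂ) * (((b w p : ℤ) : ℂ) * (((mz p.1 : ℝ) : ℂ) * ((mz (ix s p.2) : ℝ) : ℂ))) :=
        sum_congr rfl fun w hw => by rw [h2 w hw, mul_sum]
      rw [h3, sum_comm]
      refine sum_congr rfl fun p _ => ?_
      rw [hρ]
      push_cast
      rw [sum_mul]
      exact sum_congr rfl fun w _ => by ring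
    · have hinj' : ∀ v ∈ Q.image Prod.snd, ∀ v' ∈ Q.image Prod.snd, ix s v = ix s v' → v = v' := by
        intro v hv v' hv' h
        by_contra hne
        obtain ⟨a, ha, a', ha', h1, h2⟩ := ix_ne s v v' hne h
        exact hinj ⟨a, mem_biUnion.2 ⟨v, hv, List.mem_toFinset.2 ha⟩, a',
          mem_biUnion.2 ⟨v', hv', List.mem_toFinset.2 ha'⟩, h1, h2⟩
      have h1 : ∀ B : List ℂ, ∑ p ∈ Q, (((ρ p : ℤ) : ℂ) * ((mz p.1 : ℝ) : ℂ)) * Zt B (ix s p.2) = 0 := by
        intro B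
        have h2 := hT ℂ (fun j => ((mz (e j).1.1 : ℝ) : ℂ)) (Zt B) (fun _ h => h)
          (fun u v _ _ => Zt_mul B u v)
        rw [diag_eval, hsumQ fun p => ((ρ p : ℤ) : ℂ) * (((mz p.1 : ℝ) : ℂ) * ex (Zt B) (ix s p.2))] at h2
        rw [← h2]
        refine sum_congr rfl fun p _ => ?_
        have h3 : ex (Zt B) (ix s p.2) = Zt B (ix s p.2) := by
          by_cases h : ix s p.2 = []
          · rw [h, ex_nil, Zt_nil]
          · rw [ex_ne _ h]
        rw [h3]
        ring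
      set T : Finset (List ℕ) := Q.image fun p => ix s p.2 with hT'
      have h2 := Zt_indep (∑ w ∈ T, w.length) T
        (fun w => ∑ p ∈ Q with ix s p.2 = w, ((ρ p : ℤ) : ℂ) * ((mz p.1 : ℝ) : ℂ))
        (fun w hw => single_le_sum (f := fun w : List ℕ => w.length) (fun _ _ => Nat.zero_le _) hw)
        (fun B => by
          rw [← h1 B, ← sum_fiberwise_of_maps_to (t := T) (g := fun p : List ℕ × List (Lr k) => ix s p.2)
            (fun p hp => mem_image_of_mem _ hp)]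
          refine sum_congr rfl fun w _ => ?_
          rw [sum_mul]
          refine sum_congr rfl fun p hp => ?_
          rw [(mem_filter.1 hp).2])
      intro v
      by_cases hv : v ∈ Q.image Prod.snd
      · have h3 := h2 (ix s v) (by
          obtain ⟨p, hp, rfl⟩ := mem_image.1 hv
          exact mem_image_of_mem (fun p : List ℕ × List (Lr k) => ix s p.2) hp)
        have h4 : (Q.filter fun p => ix s p.2 = ix s v) = Q.filter fun p => p.2 = v := by
          refine filter_congr fun p hp => ⟨fun h => hinj' _ (mem_image_of_mem _ hp) _ hv h, fun h => by rw [h]⟩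
        rw [h4] at h3
        have h5 : ((∑ p ∈ Q with p.2 = v, ((ρ p : ℤ) : ℝ) * mz p.1 : ℝ) : ℂ) = 0 := by
          rw [← h3]
          push_cast
          rfl
        exact_mod_cast h5
      · rw [sum_eq_zero]
        intro p hp
        rw [mem_filter] at hp
        exact absurd (hp.2 ▸ mem_image_of_mem _ hp.1) hv
  rw [hsplit]
  refine (card_union_le _ _).trans ?_
  rw [add_mul]
  exact add_le_add hc1 hc2

end Pool.Agent.N665.LP
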