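import Pool.Agent.N665.LP.Few

/-!
# The part of the largest depth of a relation
-/

set_option autoImplicit false

namespace Pool.Agent.N665.LP

open Finset Pool.Agent.Y760.ZF Pool.Agent.X90.DC
open Pool.Agent.Y760.ZG (mz hr hr_nil)
open Pool.Agent.X90.DB (Ad ex ex_nil ex_ne ad_ne ix ad_sti)

variable {k : ℕ}

/-- the shuffles of two lists -/
def shf {α : Type} : List α → List α → List (List α)
  | [], v => [v]
  | x :: u, [] => [x :: u]
  | x :: u, y :: v => (shf u (y :: v)).map (x :: ·) ++ (shf (x :: u) v).map (y :: ·)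
termination_by u v => u.length + v.length

lemma filter_map_cons (x : Lr k) (L : List (List (Lr k))) (n : ℕ) :
    (L.map (x :: ·)).filter (fun z => decide (z.length = n + 1)) =
      (L.filter fun z => decide (z.length = n)).map (x :: ·) := by
  rw [List.filter_map]
  congr 1
  refine List.filter_congr fun z _ => ?_
  simp

/-- **the terms of the stuffle product of full length are the shuffles** -/
lemma psti_filter (u v : List (Lr k)) :
    (psti u v).filter (fun z => decide (z.length = u.length + v.length)) = shf u v := by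
  induction u, v using psti.induct with
  | case1 v => rw [psti, shf]; simp
  | case2 i u => rw [psti, shf]; simp
  | case3 x u y v ih1 ih2 ih3 =>
    rw [psti, shf, List.filter_append, List.filter_append]
    have e1 : (x :: u).length + (y :: v).length = (u.length + (y :: v).length) + 1 := by
      simp only [List.length_cons]; omega
    have e2 : (x :: u).length + (y :: v).length = ((x :: u).length + v.length) + 1 := by
      simp only [List.length_cons]; omega
    have h1 : ((psti u (y :: v)).map (x :: ·)).filter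
        (fun z => decide (z.length = (x :: u).length + (y :: v).length)) =
        (shf u (y :: v)).map (x :: ·) := by
      rw [e1, filter_map_cons, ih1]
    have h2 : ((psti (x :: u) v).map (y :: ·)).filter
        (fun z => decide (z.length = (x :: u).length + (y :: v).length)) =
        (shf (x :: u) v).map (y :: ·) := by
      rw [e2, filter_map_cons, ih2]
    have h3 : ((psti u v).map ((x + y) :: ·)).filter
        (fun z => decide (z.length = (x :: u).length + (y :: v).length)) = [] := by
      rw [List.filter_eq_nil_iff]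
      intro a ha
      rw [List.mem_map] at ha
      obtain ⟨a', ha', rfl⟩ := ha
      have h4 := psti_length u v a' ha'
      simp only [List.length_cons, decide_eq_true_eq]
      omega
    rw [h1, h2, h3, List.append_nil]

lemma psti_count (u v o : List (Lr k)) (ho : o.length = u.length + v.length) :
    (psti u v).count o = (shf u v).count o := by
  rw [← psti_filter, List.count_filter]
  simpa using ho

lemma shf_length (u v : List (Lr k)) : ∀ z ∈ shf u v, z.length = u.length + v.length := by
  intro z hz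
  rw [← psti_filter, List.mem_filter] at hz
  simpa using hz.2

lemma shf_mem (u v : List (Lr k)) : ∀ z ∈ shf u v, z ∈ psti u v := by
  intro z hz
  rw [← psti_filter, List.mem_filter] at hz
  exact hz.1

/-- admissible indices, the empty index included -/
def AdI (l : List ℕ) : Prop := (∀ a ∈ l, 1 ≤ a) ∧ ∀ a t, l = a :: t → 2 ≤ a

lemma adI_of {l : List ℕ} (h : l = [] ∨ Ad l) : AdI l := by
  rcases h with rfl | h
  · exact ⟨by simp, fun a t h => absurd h (List.cons_ne_nil _ _).symm⟩
  · refine ⟨h.pos, fun a t hl => ?_⟩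
    subst hl
    exact h.1

lemma of_adI {l : List ℕ} (h : AdI l) : l = [] ∨ Ad l := by
  cases l with
  | nil => exact Or.inl rfl
  | cons a t => exact Or.inr ⟨h.2 a t rfl, fun b hb => h.1 b (List.mem_cons_of_mem _ hb)⟩

/-- the span of the values of weight `n` and depth less than `d` -/
noncomputable def LD (d n : ℕ) : Submodule ℚ ℝ :=
  Submodule.span ℚ {x | ∃ l : List ℕ, AdI l ∧ l.sum = n ∧ l.length < d ∧ x = mz l}

/-- the part of depth `r` of the relation splits -/
def Spl (Λ : Finset (List (Lr k))) (r : ℕ) (S : Lr k) (c : List (Lr k) → ℤ) : Prop :=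
  ∃ (Q : Finset (List ℕ × List (Lr k))) (ρ : List ℕ × List (Lr k) → ℤ),
    (∀ p ∈ Q, AdI p.1 ∧ Gd p.2 ∧ (fp p.1).sum + p.2.sum = S ∧ p.1.length + p.2.length = r ∧
      ∃ w ∈ Λ, w.length = r ∧ p.1 <+: fpx w) ∧
    (∀ w : List (Lr k), w.length = r → c w = ∑ p ∈ Q, ρ p * ((shf (fp p.1) p.2).count w : ℤ)) ∧
    ∀ v, ∑ p ∈ Q with p.2 = v, (ρ p : ℝ) * mz p.1 ∈ LD (r - v.length) (S.1 - v.sum.1)

lemma fp_sum_fst (p : List ℕ) : (fp p : List (Lr k)).sum.1 = p.sum := by
  induction p with
  | nil => rfl
  | cons a p ih =>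
    have e : (fp (a :: p) : List (Lr k)) = (a, 0) :: fp p := rfl
    rw [e, List.sum_cons, List.sum_cons, Prod.fst_add, ih]

lemma fp_length (p : List ℕ) : (fp p : List (Lr k)).length = p.length := by
  rw [fp, List.length_map]

/-- **few tuples with relations whose part of depth `r` does not split** -/
theorem lead (r : ℕ) (S : Lr k) (Λ : Finset (List (Lr k))) (hΛ : ∀ w ∈ Λ, Ge w)
    (hr : ∀ w ∈ Λ, w.length ≤ r) (hS : ∀ w ∈ Λ, w.sum = S) (κ : ℕ) :
    ∃ K : ℕ, ∀ C : ℝ, ∃ N0 : ℕ, ∀ N : ℕ, N0 ≤ N → ∀ B : Finset (Fin k → ℕ),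
      (∀ s ∈ B, (∀ j, N ≤ s j ∧ s j ≤ κ * N) ∧ ∃ c : List (Lr k) → ℤ, (∀ w, w ∉ Λ → c w = 0) ∧
        (∀ w ∈ Λ, |(c w : ℝ)| ≤ C ^ N) ∧ ∑ w ∈ Λ, (c w : ℝ) * mz (ix s w) = 0 ∧ ¬ Spl Λ r S c) →
      B.card ≤ K * N ^ (k - 1) := by
  classical
  obtain ⟨Q, b, hQ, hb⟩ := exists_coeff Λ hΛ
  obtain ⟨K, hK⟩ := split Λ Q b (fun p hp => by
    obtain ⟨w, _, h1, _, h2, _⟩ := hQ p hp
    exact ⟨h1, h2⟩) hb κ
  refine ⟨K, fun C => ?_⟩
  obtain ⟨N0, hN0⟩ := hK C
  refine ⟨N0, fun N hN B hB => hN0 N hN B fun s hs => ?_⟩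
  obtain ⟨h1, c, hc, hcC, hc0, hne⟩ := hB s hs
  refine ⟨h1, c, hcC, hc0, fun hv => hne ?_⟩
  set ρ : List ℕ × List (Lr k) → ℤ := fun p => ∑ w ∈ Λ, c w * b w p with hρ
  refine ⟨Q.filter fun p => p.1.length + p.2.length = r, ρ, fun p hp => ?_, fun o ho => ?_,
    fun v => ?_⟩
  · rw [mem_filter] at hp
    obtain ⟨w, hw, h2, h3, h4, h5, h6⟩ := hQ p hp.1
    refine ⟨adI_of h2, h4, h6.trans (hS w hw), hp.2, w, hw, ?_, h3⟩
    have := hr w hw
    omega
  · -- the coefficients
    have h2 : c o = ∑ p ∈ Q, ρ p * ((psti (fp p.1) p.2).count o : ℤ) := by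
      have h3 : ∀ w ∈ Λ, (if w = o then (1 : ℤ) else 0) =
          ∑ p ∈ Q, b w p * ((psti (fp p.1) p.2).count o : ℤ) := by
        intro w hw
        have h4 := hb ℤ (fun z => if z = o then (1 : ℤ) else 0) w hw
        rw [h4]
        refine sum_congr rfl fun p _ => ?_
        rw [smul_eq_mul]
        congr 1
        generalize psti (fp p.1) p.2 = L
        induction L with
        | nil => simp
        | cons a L ih =>
          rw [List.map_cons, List.sum_cons, ih, List.count_cons]
          by_cases h : a = o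
          · simp [h]
            ring
          · simp [h]
      have h5 : c o = ∑ w ∈ Λ, c w * (if w = o then (1 : ℤ) else 0) := by
        simp only [mul_ite, mul_one, mul_zero]
        rw [sum_ite_eq']
        split_ifs with h
        · rfl
        · exact hc o h
      rw [h5, sum_congr rfl fun w hw => by rw [h3 w hw, mul_sum], sum_comm]
      refine sum_congr rfl fun p _ => ?_
      rw [hρ]
      simp only
      rw [sum_mul]
      exact sum_congr rfl fun w _ => by ring
    rw [h2, ← sum_filter_add_sum_filter_not Q (fun p => p.1.length + p.2.length = r)]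
    have h3 : ∑ p ∈ Q.filter (fun p => ¬ p.1.length + p.2.length = r),
        ρ p * ((psti (fp p.1) p.2).count o : ℤ) = 0 := by
      refine sum_eq_zero fun p hp => ?_
      rw [mem_filter] at hp
      obtain ⟨w, hw, _, _, _, h5, _⟩ := hQ p hp.1
      have h6 := hr w hw
      rw [List.count_eq_zero.2, Nat.cast_zero, mul_zero]
      intro h7
      have h8 := psti_length _ _ o h7
      rw [fp_length] at h8
      have := hp.2
      omega
    rw [h3, add_zero]
    refine sum_congr rfl fun p hp => ?_
    rw [psti_count _ _ _ (by rw [fp_length, ho, (mem_filter.1 hp).2])]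
  · have h2 := hv v
    rw [← sum_filter_add_sum_filter_not _ (fun p : List ℕ × List (Lr k) => p.1.length + p.2.length = r)] at h2
    have h3 : ∑ p ∈ (Q.filter fun p => p.1.length + p.2.length = r) with p.2 = v, (ρ p : ℝ) * mz p.1 =
        ∑ p ∈ (Q.filter fun p => p.2 = v) with p.1.length + p.2.length = r,
          ((∑ w ∈ Λ, c w * b w p : ℤ) : ℝ) * mz p.1 := by
      rw [filter_filter, filter_filter]
      exact sum_congr (filter_congr fun p _ => by rw [and_comm]) fun _ _ => rfl
    rw [h3, eq_neg_of_add_eq_zero_left h2]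
    refine Submodule.neg_mem _ (Submodule.sum_mem _ fun p hp => ?_)
    obtain ⟨hp, hpl⟩ := mem_filter.1 hp
    obtain ⟨hp, hpv⟩ := mem_filter.1 hp
    obtain ⟨w, hw, h4, _, _, h5, h6⟩ := hQ p hp
    have h7 := hr w hw
    have h8 : ((∑ w ∈ Λ, c w * b w p : ℤ) : ℝ) * mz p.1 = ((∑ w ∈ Λ, c w * b w p : ℤ) : ℚ) • mz p.1 := by
      rw [Rat.smul_def]
      push_cast
      rfl
    rw [h8]
    refine Submodule.smul_mem _ _ (Submodule.subset_span ⟨p.1, adI_of h4, ?_, ?_, rfl⟩)
    · have h9 := congrArg Prod.fst (h6.trans (hS w hw))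
      rw [Prod.fst_add, fp_sum_fst, hpv] at h9
      omega
    · rw [← hpv]
      omega

/-- no value has depth less than `0`, and none of positive weight has depth less than `1` -/
lemma LD_zero {d n : ℕ} (h : d = 0 ∨ d = 1 ∧ 1 ≤ n) : LD d n = ⊥ := by
  rw [LD, Submodule.span_eq_bot]
  rintro x ⟨l, _, hk, hl, rfl⟩
  rcases h with rfl | ⟨rfl, hk1⟩
  · exact absurd hl (Nat.not_lt_zero _)
  · rw [Nat.lt_one_iff, List.length_eq_zero_iff] at hl
    rw [hl, List.sum_nil] at hk
    omega

lemma mz_nil : mz [] = 1 := by rw [mz]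

lemma mz_single_ne {b : ℕ} (hb : 2 ≤ b) : mz [b] ≠ 0 := by
  have h1 := summable_hr [] (by simp) hb
  have h2 : 0 < mz [b] := by
    rw [mz]
    refine h1.tsum_pos (fun m => ?_) 0 ?_
    · rw [hr_nil]; positivity
    · rw [hr_nil]; simp
  exact h2.ne'

/-- **at most one constant letter in front** -/
theorem one (r : ℕ) (S : Lr k) (Λ : Finset (List (Lr k)))
    (h1 : ∀ w ∈ Λ, w.length = r → (fpx w).length ≤ 1) (c : List (Lr k) → ℤ) (h : Spl Λ r S c) :
    ∀ o : List (Lr k), o.length = r → c o = 0 := by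
  classical
  obtain ⟨Q, ρ, hQ, hc, hL⟩ := h
  have hform : ∀ p ∈ Q, p.1 = [] ∨ ∃ b : ℕ, 2 ≤ b ∧ p.1 = [b] := by
    intro p hp
    obtain ⟨h2, _, _, _, w, hw, hwr, hpw⟩ := hQ p hp
    have h4 := hpw.length_le.trans (h1 w hw hwr)
    rcases h5 : p.1 with _ | ⟨b, l⟩
    · exact Or.inl rfl
    · rw [h5] at h2 h4
      have hl : l = [] := List.length_eq_zero_iff.1 (by simp only [List.length_cons] at h4; omega)
      subst hl
      exact Or.inr ⟨b, h2.2 b [] rfl, rfl⟩
  have hρ : ∀ p ∈ Q, ρ p = 0 := by
    intro p hp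
    obtain ⟨_, _, h5, h6, _⟩ := hQ p hp
    have h7 := hL p.2
    have h5' := congrArg Prod.fst h5
    rw [Prod.fst_add, fp_sum_fst] at h5'
    have h8 : (Q.filter fun p' => p'.2 = p.2) = {p} := by
      ext p'
      rw [mem_filter, mem_singleton]
      constructor
      · rintro ⟨hp', h9⟩
        refine Prod.ext ?_ h9
        obtain ⟨_, _, h10, h11, _⟩ := hQ p' hp'
        have h12 := congrArg Prod.fst h10
        rw [Prod.fst_add, fp_sum_fst, h9] at h12
        rw [h9] at h11
        have h13 : p'.1.length = p.1.length := by omega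
        have h14 : p'.1.sum = p.1.sum := by omega
        rcases hform p hp with h | ⟨b, _, h⟩
        · rw [h, List.length_nil] at h13
          rw [h, List.length_eq_zero_iff.1 h13]
        · rcases hform p' hp' with h' | ⟨b', _, h'⟩
          · rw [h, h'] at h13
            simp at h13
          · rw [h, h'] at h14 ⊢
            simp only [List.sum_cons, List.sum_nil, add_zero] at h14
            rw [h14]
      · rintro rfl
        exact ⟨hp, rfl⟩
    rw [h8, sum_singleton] at h7
    have h9 : LD (r - p.2.length) (S.1 - p.2.sum.1) = ⊥ := by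
      refine LD_zero ?_
      rcases hform p hp with h | ⟨b, hb, h⟩
      · left
        rw [h, List.length_nil] at h6
        omega
      · right
        rw [h] at h5' h6
        simp only [List.sum_cons, List.sum_nil, add_zero] at h5'
        simp only [List.length_cons, List.length_nil] at h6
        omega
    rw [h9, Submodule.mem_bot] at h7
    have h10 : mz p.1 ≠ 0 := by
      rcases hform p hp with h | ⟨b, hb, h⟩
      · rw [h, mz_nil]
        exact one_ne_zero
      · rw [h]
        exact mz_single_ne hb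
    rcases mul_eq_zero.1 h7 with h11 | h11
    · exact_mod_cast h11
    · exact absurd h11 h10
  intro o ho
  rw [hc o ho]
  exact sum_eq_zero fun p hp => by rw [hρ p hp, zero_mul]

lemma sti_sum (u v : List ℕ) : ∀ x ∈ sti u v, x.sum = u.sum + v.sum := by
  induction u, v using sti.induct with
  | case1 v =>
    intro x hx
    rw [sti, List.mem_singleton] at hx
    rw [hx, List.sum_nil, zero_add]
  | case2 i u =>
    intro x hx
    rw [sti, List.mem_singleton] at hx
    rw [hx, List.sum_nil, add_zero]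
  | case3 i u j v ih1 ih2 ih3 =>
    intro x hx
    rw [sti, List.mem_append, List.mem_append, List.mem_map, List.mem_map, List.mem_map] at hx
    simp only [List.sum_cons] at ih1 ih2 ih3 ⊢
    rcases hx with (⟨x', hx', rfl⟩ | ⟨x', hx', rfl⟩) | ⟨x', hx', rfl⟩
    · have := ih1 x' hx'
      rw [List.sum_cons]
      omega
    · have := ih2 x' hx'
      rw [List.sum_cons]
      omega
    · have := ih3 x' hx'
      rw [List.sum_cons]
      omega

/-- the product of two values -/
lemma mz_mul' {u v : List ℕ} (hu : u = [] ∨ Ad u) (hv : v = [] ∨ Ad v) :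
    mz u * mz v = ((sti u v).map mz).sum := by
  rcases hu with rfl | hu
  · rw [mz_nil, one_mul, sti]
    simp
  · rcases hv with rfl | hv
    · rw [mz_nil, mul_one, sti_nil_right]
      simp
    · exact mz_stuffle u v hu hv

/-- products with values of smaller depth -/
lemma LD_mul {d n : ℕ} {x : ℝ} (hx : x ∈ LD d n) {v : List ℕ} (hv : v = [] ∨ Ad v) :
    x * mz v ∈ LD (d + v.length) (n + v.sum) := by
  rw [LD] at hx
  induction hx using Submodule.span_induction with
  | mem x hx =>
    obtain ⟨l, h1, h2, h3, rfl⟩ := hx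
    rw [mz_mul' (of_adI h1) hv]
    have h4 : ∀ z ∈ sti l v, mz z ∈ LD (d + v.length) (n + v.sum) := by
      intro z hz
      refine Submodule.subset_span ⟨z, adI_of (sti_ad' (of_adI h1) hv z hz), ?_, ?_, rfl⟩
      · rw [sti_sum l v z hz, h2]
      · have := sti_length l v z hz
        omega
    revert h4
    generalize sti l v = T
    intro h4
    induction T with
    | nil => rw [List.map_nil, List.sum_nil]; exact Submodule.zero_mem _
    | cons a T ih =>
      rw [List.map_cons, List.sum_cons]
      exact Submodule.add_mem _ (h4 a List.mem_cons_self) (ih fun z hz => h4 z (List.mem_cons_of_mem _ hz))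
  | zero => rw [zero_mul]; exact Submodule.zero_mem _
  | add x y _ _ h1 h2 => rw [add_mul]; exact Submodule.add_mem _ h1 h2
  | smul q x _ h1 => rw [smul_mul_assoc]; exact Submodule.smul_mem _ _ h1

lemma ix_sum (s : Fin k → ℕ) (w : List (Lr k)) : (ix s w).sum = w.sum.1 + ∑ j, w.sum.2 j * s j := by
  induction w with
  | nil =>
    have : ix s ([] : List (Lr k)) = [] := rfl
    rw [this]
    simp
  | cons u w ih =>
    rw [ix_cons, List.sum_cons, ih, List.sum_cons, Prod.fst_add, Prod.snd_add]
    simp only [Pi.add_apply, add_mul, sum_add_distrib]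
    ring

lemma fp_sum_snd (p : List ℕ) : (fp p : List (Lr k)).sum.2 = 0 := by
  induction p with
  | nil => rfl
  | cons a p ih =>
    have e : (fp (a :: p) : List (Lr k)) = (a, 0) :: fp p := rfl
    rw [e, List.sum_cons, Prod.snd_add, ih, add_zero]

lemma Gd_ok {w : List (Lr k)} (h : Gd w) {p : List ℕ} (hp : AdI p) :
    ∀ z ∈ psti (fp p) w, ∀ s : Fin k → ℕ, (∀ j, 2 ≤ s j) → AdI (ix s z) := by
  intro z hz s hs
  have h1 : ix s z ∈ sti p (ix s w) := by
    have h2 := ix_psti s (fp p) w
    rw [ix_fp] at h2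
    rw [h2]
    exact List.mem_map_of_mem hz
  exact adI_of (sti_ad' (of_adI hp) (ix_Ad hs h) _ h1)

/-- the values of the split combinations -/
theorem conv_aux (r : ℕ) (S : Lr k) (Q : Finset (List ℕ × List (Lr k)))
    (ρ : List ℕ × List (Lr k) → ℤ) (hQ : ∀ p ∈ Q, AdI p.1 ∧ Gd p.2 ∧ (fp p.1).sum + p.2.sum = S ∧
      p.1.length + p.2.length = r)
    (hL : ∀ v, ∑ p ∈ Q with p.2 = v, (ρ p : ℝ) * mz p.1 ∈ LD (r - v.length) (S.1 - v.sum.1))
    (s : Fin k → ℕ) (hs : ∀ j, 2 ≤ s j) :
    ∑ p ∈ Q, (ρ p : ℝ) * ((shf (fp p.1) p.2).map fun z => mz (ix s z)).sum ∈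
      LD r (S.1 + ∑ j, S.2 j * s j) := by
  classical
  have hz : ∀ p ∈ Q, ∀ z ∈ psti (fp p.1) p.2, z.length ≤ r ∧ AdI (ix s z) ∧
      (ix s z).sum = S.1 + ∑ j, S.2 j * s j := by
    intro p hp z hz
    obtain ⟨h1, h2, h3, h4⟩ := hQ p hp
    refine ⟨?_, Gd_ok h2 h1 z hz s hs, ?_⟩
    · have := psti_length _ _ z hz
      rw [fp_length] at this
      omega
    · rw [ix_sum, psti_sum _ _ z hz, h3]
  -- the shuffles and the other terms
  have h1 : ∀ p ∈ Q, ((shf (fp p.1) p.2).map fun z => mz (ix s z)).sum =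
      mz p.1 * mz (ix s p.2) - (((psti (fp p.1) p.2).filter
        (fun z => !decide (z.length = (fp p.1 : List (Lr k)).length + p.2.length))).map fun z => mz (ix s z)).sum := by
    intro p hp
    obtain ⟨g1, g2, g3, g4⟩ := hQ p hp
    have h2 := mz_mul' (of_adI g1) (ix_Ad hs g2)
    have h3 : sti p.1 (ix s p.2) = (psti (fp p.1) p.2).map (ix s) := by
      rw [← ix_psti, ix_fp]
    rw [h3, List.map_map] at h2
    rw [h2, ← psti_filter]
    generalize psti (fp p.1) p.2 = T
    induction T with
    | nil => simp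
    | cons a T ih =>
      rw [List.map_cons, List.sum_cons]
      by_cases h : a.length = (fp p.1 : List (Lr k)).length + p.2.length
      · rw [List.filter_cons_of_pos (by simpa using h), List.filter_cons_of_neg (by simpa using h),
          List.map_cons, List.sum_cons, ih, Function.comp]
        ring
      · rw [List.filter_cons_of_neg (by simpa using h), List.filter_cons_of_pos (by simpa using h),
          List.map_cons, List.sum_cons, ih, Function.comp]
        ring
  have h0 : ∑ p ∈ Q, (ρ p : ℝ) * ((shf (fp p.1) p.2).map fun z => mz (ix s z)).sum =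
      ∑ p ∈ Q, ((ρ p : ℝ) * (mz p.1 * mz (ix s p.2)) - (ρ p : ℝ) * (((psti (fp p.1) p.2).filter
        (fun z => !decide (z.length = (fp p.1 : List (Lr k)).length + p.2.length))).map
          fun z => mz (ix s z)).sum) :=
    sum_congr rfl fun p hp => by rw [h1 p hp, mul_sub]
  rw [h0, sum_sub_distrib]
  have hint : ∀ (a : ℤ) (x : ℝ) (P : Submodule ℚ ℝ), x ∈ P → (a : ℝ) * x ∈ P := by
    intro a x P hx
    have : (a : ℝ) * x = ((a : ℤ) : ℚ) • x := by
      rw [Rat.smul_def]
      push_cast
      rfl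
    rw [this]
    exact Submodule.smul_mem _ _ hx
  refine Submodule.sub_mem _ ?_ (Submodule.sum_mem _ fun p hp => hint _ _ _ ?_)
  · have h2 : ∑ p ∈ Q, (ρ p : ℝ) * (mz p.1 * mz (ix s p.2)) =
        ∑ v ∈ Q.image Prod.snd, (∑ p ∈ Q with p.2 = v, (ρ p : ℝ) * mz p.1) * mz (ix s v) := by
      rw [← sum_fiberwise_of_maps_to (t := Q.image Prod.snd) (g := Prod.snd)
        (fun p hp => mem_image_of_mem _ hp)]
      refine sum_congr rfl fun v _ => ?_
      rw [sum_mul]
      refine sum_congr rfl fun p hp => ?_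
      rw [(mem_filter.1 hp).2]
      ring
    rw [h2]
    refine Submodule.sum_mem _ fun v hv => ?_
    obtain ⟨p, hp, rfl⟩ := mem_image.1 hv
    obtain ⟨g1, g2, g3, g4⟩ := hQ p hp
    have h3 := LD_mul (hL p.2) (ix_Ad hs g2)
    have h4 : r - p.2.length + (ix s p.2).length = r := by
      rw [ix, List.length_map]
      omega
    have h5 : S.1 - p.2.sum.1 + (ix s p.2).sum = S.1 + ∑ j, S.2 j * s j := by
      rw [ix_sum, ← g3, Prod.fst_add, Prod.snd_add, fp_sum_snd, zero_add]
      omega
    rw [h4, h5] at h3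
    exact h3
  · have h2 : ∀ z ∈ (psti (fp p.1) p.2).filter
        (fun z => !decide (z.length = (fp p.1 : List (Lr k)).length + p.2.length)),
        mz (ix s z) ∈ LD r (S.1 + ∑ j, S.2 j * s j) := by
      intro z hz'
      rw [List.mem_filter] at hz'
      obtain ⟨g1, g2, g3⟩ := hz p hp z hz'.1
      have g4 : z.length ≠ r := by
        have := hz'.2
        simp only [Bool.not_eq_true', decide_eq_false_iff_not] at this
        rw [fp_length, (hQ p hp).2.2.2] at this
        exact this
      refine Submodule.subset_span ⟨ix s z, g2, g3, ?_, rfl⟩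
      rw [ix, List.length_map]
      omega
    revert h2
    generalize (psti (fp p.1) p.2).filter
        (fun z => !decide (z.length = (fp p.1 : List (Lr k)).length + p.2.length)) = T
    intro h2
    induction T with
    | nil => rw [List.map_nil, List.sum_nil]; exact Submodule.zero_mem _
    | cons a T ih =>
      rw [List.map_cons, List.sum_cons]
      exact Submodule.add_mem _ (h2 a List.mem_cons_self) (ih fun z hz => h2 z (List.mem_cons_of_mem _ hz))

/-- **the converse** -/
theorem conv (r : ℕ) (S : Lr k) (Λ : Finset (List (Lr k))) (c : List (Lr k) → ℤ)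
    (hc0 : ∀ w, w ∉ Λ → c w = 0) (h : Spl Λ r S c) (s : Fin k → ℕ) (hs : ∀ j, 2 ≤ s j) :
    ∑ w ∈ Λ with w.length = r, (c w : ℝ) * mz (ix s w) ∈ LD r (S.1 + ∑ j, S.2 j * s j) := by
  classical
  obtain ⟨Q, ρ, hQ, hc, hL⟩ := h
  have h1 := conv_aux r S Q ρ (fun p hp => by
    obtain ⟨g1, g2, g3, g4, _⟩ := hQ p hp
    exact ⟨g1, g2, g3, g4⟩) hL s hs
  set T : Finset (List (Lr k)) := (Λ.filter fun w => w.length = r) ∪
    Q.biUnion fun p => (shf (fp p.1) p.2).toFinset with hT
  have hTr : ∀ z ∈ T, z.length = r := by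
    intro z hz
    rw [hT, mem_union, mem_filter, mem_biUnion] at hz
    rcases hz with hz | ⟨p, hp, hz⟩
    · exact hz.2
    · rw [List.mem_toFinset] at hz
      rw [shf_length _ _ z hz, fp_length, (hQ p hp).2.2.2.1]
  have h2 : ∑ p ∈ Q, (ρ p : ℝ) * ((shf (fp p.1) p.2).map fun z => mz (ix s z)).sum =
      ∑ w ∈ Λ with w.length = r, (c w : ℝ) * mz (ix s w) := by
    have h3 : ∀ p ∈ Q, ((shf (fp p.1) p.2).map fun z => mz (ix s z)).sum =
        ∑ z ∈ T, (((shf (fp p.1) p.2).count z : ℕ) : ℝ) * mz (ix s z) := by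
      intro p hp
      rw [Finset.sum_list_map_count]
      rw [← sum_subset (s₁ := (shf (fp p.1) p.2).toFinset) (s₂ := T)]
      · refine sum_congr rfl fun z _ => ?_
        rw [nsmul_eq_mul]
        congr!
      · intro z hz
        rw [hT, mem_union, mem_biUnion]
        exact Or.inr ⟨p, hp, hz⟩
      · intro z _ hz
        rw [List.mem_toFinset] at hz
        rw [List.count_eq_zero.2 hz, Nat.cast_zero, zero_mul]
    rw [sum_congr rfl fun p hp => by rw [h3 p hp, mul_sum], sum_comm]
    have h4 : ∀ z ∈ T, ∑ p ∈ Q, (ρ p : ℝ) * ((((shf (fp p.1) p.2).count z : ℕ) : ℝ) * mz (ix s z)) =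
        (c z : ℝ) * mz (ix s z) := by
      intro z hz
      rw [hc z (hTr z hz)]
      push_cast
      rw [sum_mul]
      exact sum_congr rfl fun p _ => by ring
    rw [sum_congr rfl h4]
    symm
    refine sum_subset (fun z hz => ?_) fun z hz hz' => ?_
    · rw [hT, mem_union]
      exact Or.inl hz
    · have h5 : z ∉ Λ := fun h => hz' (mem_filter.2 ⟨h, hTr z hz⟩)
      rw [hc0 z h5, Int.cast_zero, zero_mul]
  rw [← h2]
  exact h1

end Pool.Agent.N665.LP
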